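import Pool.Agent.W528.HS.Stm

/-!
# The number of points of projective space
-/

set_option autoImplicit false

namespace Pool.Agent.W273.HS.PJ

open Finset Pool.Agent.W528.HS

lemma isNorm_snoc {L : Type} [Field L] {k : ℕ} (u : Fin k → L) (a : L) :
    IsNorm (Fin.snoc (α := fun _ => L) u a) ↔ a = 1 ∨ (a = 0 ∧ IsNorm u) := by
  constructor
  · rintro ⟨i, hi, hj⟩
    induction i using Fin.lastCases with
    | last =>
      left
      simpa using hi
    | cast i =>
      right
      refine ⟨?_, i, by simpa using hi, ?_⟩
      · have h := hj (Fin.last k) (Fin.castSucc_lt_last i)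
        simpa using h
      · intro j hij
        have h := hj (Fin.castSucc j) (by simpa using hij)
        simpa using h
  · rintro (h | ⟨h, i, hi, hj⟩)
    · refine ⟨Fin.last k, by simpa using h, fun j hj => ?_⟩
      exact absurd hj (not_lt.mpr (Fin.le_last j))
    · refine ⟨Fin.castSucc i, by simpa using hi, ?_⟩
      intro j hij
      induction j using Fin.lastCases with
      | last => simpa using h
      | cast j => simpa using hj j (by simpa using hij)

lemma snoc_inj {L : Type} {k : ℕ} (a : L) :
    Function.Injective (fun u : Fin k → L => (Fin.snoc (α := fun _ => L) u a : Fin (k + 1) → L)) := by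
  intro u v h
  have h1 : Fin.init (α := fun _ => L) (Fin.snoc (α := fun _ => L) u a)
      = Fin.init (α := fun _ => L) (Fin.snoc (α := fun _ => L) v a) := by
    show Fin.init (α := fun _ => L) ((fun u : Fin k → L =>
      (Fin.snoc (α := fun _ => L) u a : Fin (k + 1) → L)) u) = _
    rw [h]
  rwa [Fin.init_snoc, Fin.init_snoc] at h1

lemma card_norm (L : Type) [Field L] [Fintype L] (k : ℕ) :
    Set.ncard {v : Fin k → L | IsNorm v} = ∑ i ∈ range k, Fintype.card L ^ i := by
  induction k with
  | zero =>
    rw [sum_range_zero]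
    have : {v : Fin 0 → L | IsNorm v} = ∅ := by
      ext v
      simp only [Set.mem_setOf_eq, Set.mem_empty_iff_false, iff_false]
      rintro ⟨i, -⟩
      exact i.elim0
    rw [this, Set.ncard_empty]
  | succ k ih =>
    have hset : {v : Fin (k + 1) → L | IsNorm v} =
        ((fun u : Fin k → L => (Fin.snoc (α := fun _ => L) u (0 : L) : Fin (k + 1) → L)) ''
          {u | IsNorm u}) ∪
        ((fun u : Fin k → L => (Fin.snoc (α := fun _ => L) u (1 : L) : Fin (k + 1) → L)) ''
          Set.univ) := by
      ext v
      simp only [Set.mem_setOf_eq, Set.mem_union, Set.mem_image, Set.mem_univ, true_and]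
      have hv : v = Fin.snoc (α := fun _ => L) (Fin.init v) (v (Fin.last k)) :=
        (Fin.snoc_init_self v).symm
      constructor
      · intro h
        rw [hv, isNorm_snoc] at h
        rcases h with h | ⟨h, h'⟩
        · right
          exact ⟨Fin.init v, by rw [← h]; exact hv.symm⟩
        · left
          exact ⟨Fin.init v, h', by rw [← h]; exact hv.symm⟩
      · rintro (⟨u, hu, rfl⟩ | ⟨u, rfl⟩)
        · exact (isNorm_snoc u 0).mpr (Or.inr ⟨rfl, hu⟩)
        · exact (isNorm_snoc u 1).mpr (Or.inl rfl)
    rw [hset, Set.ncard_union_eq ?_ (Set.toFinite _) (Set.toFinite _),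
      Set.ncard_image_of_injective _ (snoc_inj _), Set.ncard_image_of_injective _ (snoc_inj _), ih,
      sum_range_succ, Set.ncard_univ, Nat.card_eq_fintype_card, Fintype.card_fun, Fintype.card_fin]
    rw [Set.disjoint_left]
    rintro v ⟨u, -, rfl⟩ ⟨w, -, h⟩
    have h1 := congrFun h (Fin.last k)
    simp at h1

theorem main : Pool.Agent.W528.HS.PJ := by
  intro L _ _ n F
  rw [← card_norm]
  unfold projOpen projZero
  rw [← Set.ncard_union_eq ?_ (Set.toFinite _) (Set.toFinite _)]
  · congr 1
    ext v
    simp only [Set.mem_union, Set.mem_setOf_eq]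
    tauto
  · rw [Set.disjoint_left]
    rintro v ⟨-, h1⟩ ⟨-, h2⟩
    exact h1 h2

end Pool.Agent.W273.HS.PJ
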